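import Mathlib

/-!
# Hyperbolic SRB measures of surface endomorphisms: definitions on the two-torus
-/

set_option autoImplicit false

open Set Filter Topology MeasureTheory Function
open scoped ContDiff ENNReal

namespace Pool.Agent.H165S

/-- The two-torus `ℝ²/ℤ²`. Its `volume` is Lebesgue measure. -/
abbrev Torus : Type := UnitAddCircle × UnitAddCircle

/-- The projection of the plane onto the two-torus. -/
def proj (z : ℝ × ℝ) : Torus := ((z.1 : UnitAddCircle), (z.2 : UnitAddCircle))

/-- `f` is a smooth endomorphism of the two-torus, described with a lift `F` to the plane: a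
non-invertible `C^∞` local diffeomorphism. -/
structure IsEndo (f : Torus → Torus) (F : ℝ × ℝ → ℝ × ℝ) : Prop where
  lift : ∀ z, f (proj z) = proj (F z)
  smooth : ContDiff ℝ ∞ F
  local_diffeo : ∀ z, (fderiv ℝ F z).IsInvertible
  noninvertible : ¬ Injective f

/-- The measure with density `ρ` with respect to Lebesgue measure on the torus. -/
noncomputable def densMeasure (ρ : Torus → ℝ) : Measure Torus :=
  (volume : Measure Torus).withDensity fun w => ENNReal.ofReal (ρ w)

/-- `f` preserves no measure with a continuous positive density (in particular no probability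
measure with a smooth positive density). -/
def IsDissipative (f : Torus → Torus) : Prop :=
  ∀ ρ : Torus → ℝ, Continuous ρ → (∀ w, 0 < ρ w) →
    ¬ MeasurePreserving f (densMeasure ρ) (densMeasure ρ)

/-- The conorm `inf {‖A v‖ : ‖v‖ = 1}`. -/
noncomputable def conorm (A : ℝ × ℝ →L[ℝ] ℝ × ℝ) : ℝ := ⨅ v : {v : ℝ × ℝ // ‖v‖ = 1}, ‖A v.1‖

/-- At `μ`-almost every point `w` the Lyapunov exponents `χ⁺ = lim (1/n) log ‖D_w fⁿ‖` and
`χ⁻ = lim (1/n) log m(D_w fⁿ)` exist, and `χ⁻ < 0 < χ⁺`. The derivative of `fⁿ` at `w` is that of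
the lift at any point `z` above `w`. -/
def IsHyperbolic (F : ℝ × ℝ → ℝ × ℝ) (μ : Measure Torus) : Prop :=
  ∀ᵐ w ∂μ, ∀ z : ℝ × ℝ, proj z = w → ∃ χm χp : ℝ, χm < 0 ∧ 0 < χp ∧
    Tendsto (fun n : ℕ => (1 / (n : ℝ)) * Real.log ‖fderiv ℝ (F^[n]) z‖) atTop (𝓝 χp) ∧
    Tendsto (fun n : ℕ => (1 / (n : ℝ)) * Real.log (conorm (fderiv ℝ (F^[n]) z))) atTop (𝓝 χm)

/-- The natural extension, the space of backward orbits: the `n`-th coordinate of `x` stands for
`x_{-n}`. It carries the product topology and its Borel sets. -/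
abbrev NatExt (f : Torus → Torus) : Type := {x : ℕ → Torus // ∀ n, f (x (n + 1)) = x n}

/-- The projection `x ↦ x_0`. -/
def zeroth {f : Torus → Torus} (x : NatExt f) : Torus := x.1 0

/-- The shift of the natural extension. -/
def shift (f : Torus → Torus) (x : NatExt f) : NatExt f :=
  ⟨fun n => Nat.casesOn n (f (x.1 0)) x.1, fun n => by
    cases n with
    | zero => rfl
    | succ n => exact x.2 n⟩

/-- `μhat` is the lift of `μ` to the natural extension: it is invariant under the shift and projects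
to `μ`. -/
structure IsLiftOf (f : Torus → Torus) (μ : Measure Torus) (μhat : Measure (NatExt f)) : Prop where
  invariant : MeasurePreserving (shift f) μhat μhat
  projects : MeasurePreserving zeroth μhat μ

/-- `y` lies in the unstable set of `x`: the distance of `x_{-n}` and `y_{-n}` tends to zero
exponentially fast. -/
def InUnstable {f : Torus → Torus} (x y : NatExt f) : Prop :=
  ∃ C θ : ℝ, 0 < θ ∧ θ < 1 ∧ ∀ n : ℕ, dist (x.1 n) (y.1 n) ≤ C * θ ^ n

/-- `μhat` has absolutely continuous conditional measures on local unstable manifolds. There are a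
measurable partition, namely the partition into the fibres of a measurable map `q` to a standard
Borel space `Z`, and a system `K` of conditional probability measures of `μhat` on the fibres, such
that for `μhat`-almost every `x` the fibre `A` of `x` is contained in the unstable set of `x`, it is
projected bijectively by `zeroth` onto a one-dimensional embedded `C¹` arc `γ : (a, b) → 𝕋²` with
non-vanishing derivative, and the conditional measure on `A` is projected to a measure on
the arc that is absolutely continuous with respect to arc length (equivalently, with respect to the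
image under `γ` of Lebesgue measure on `(a, b)`). -/
def HasACConditionals {f : Torus → Torus} (μhat : Measure (NatExt f)) : Prop :=
  ∃ (Z : Type) (_ : MeasurableSpace Z) (_ : StandardBorelSpace Z) (q : NatExt f → Z)
    (K : ProbabilityTheory.Kernel Z (NatExt f)),
    Measurable q ∧ ProbabilityTheory.IsMarkovKernel K ∧ (μhat.map q).bind K = μhat ∧
    ∀ᵐ x ∂μhat, K (q x) (q ⁻¹' {q x})ᶜ = 0 ∧ (∀ y, q y = q x → InUnstable x y) ∧
      ∃ (γ : ℝ → ℝ × ℝ) (a b : ℝ), a < b ∧ ContDiff ℝ 1 γ ∧ (∀ t ∈ Ioo a b, deriv γ t ≠ 0) ∧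
        IsEmbedding (fun t : Ioo a b => proj (γ t)) ∧
        BijOn zeroth (q ⁻¹' {q x}) (proj ∘ γ '' Ioo a b) ∧
        (K (q x)).map zeroth ≪ (volume.restrict (Ioo a b)).map (proj ∘ γ)

/-- `E` is a continuous field of lines over the set `S`: near each point of `S` it contains a
non-vanishing vector field, defined on `S` and continuous at that point. -/
def IsLineField {X : Type} [TopologicalSpace X] (S : Set X) (E : X → Submodule ℝ (ℝ × ℝ)) : Prop :=
  ∀ x ∈ S, Module.finrank ℝ (E x) = 1 ∧
    ∃ v : X → ℝ × ℝ, ContinuousWithinAt v S x ∧ v x ≠ 0 ∧ ∀ᶠ y in 𝓝[S] x, v y ∈ E y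

/-- There is a dominated splitting over the set `S` of the natural extension: two continuous fields
of complementary lines `E` and `G` over `S`, invariant under the derivative cocycle, with
`‖Dfⁿ|E‖ ≤ C lamⁿ ‖Dfⁿ|G‖` for all `n ≥ 0`. -/
def HasDominatedSplitting (f : Torus → Torus) (F : ℝ × ℝ → ℝ × ℝ) (S : Set (NatExt f)) : Prop :=
  ∃ E G : NatExt f → Submodule ℝ (ℝ × ℝ), IsLineField S E ∧ IsLineField S G ∧
    (∀ x ∈ S, IsCompl (E x) (G x)) ∧
    (∀ x ∈ S, ∀ z, proj z = zeroth x →
      (E x).map (fderiv ℝ F z : ℝ × ℝ →ₗ[ℝ] ℝ × ℝ) = E (shift f x) ∧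
      (G x).map (fderiv ℝ F z : ℝ × ℝ →ₗ[ℝ] ℝ × ℝ) = G (shift f x)) ∧
    ∃ C lam : ℝ, 0 < C ∧ 0 < lam ∧ lam < 1 ∧
      ∀ x ∈ S, ∀ z, proj z = zeroth x → ∀ n : ℕ, ∀ u ∈ E x, ∀ v ∈ G x, ‖u‖ = 1 → ‖v‖ = 1 →
        ‖fderiv ℝ (F^[n]) z u‖ ≤ C * lam ^ n * ‖fderiv ℝ (F^[n]) z v‖

end Pool.Agent.H165S
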