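import Pool.Agent.H165S.Sol
import Pool.Agent.H165S.Defs
import Pool.Agent.H165R3.Birk

/-!
# The lifted measure and its conditional measures
-/

set_option autoImplicit false

open Set Filter Topology MeasureTheory Function
open scoped ContDiff ENNReal Real

namespace Pool.Agent.H165S

open Pool.Agent.H165R3

instance instBorelSeq : BorelSpace (ℕ → UnitAddCircle × UnitAddCircle) := Pi.borelSpace

instance instBorelNat (f : Torus → Torus) : BorelSpace (NatExt f) := Subtype.borelSpace _

/-- Lebesgue measure on the unit interval -/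
noncomputable abbrev v01 : Measure ℝ := volume.restrict (Ioo (0 : ℝ) 1)

instance : IsProbabilityMeasure v01 := ⟨by simp [v01]⟩

/-- embedding of the solenoid into the natural extension -/
def jj (x : Sol) : NatExt ff := ⟨fun n => (x.1 n, 0), fun n => by
  rw [ff_circle, x.2 n]⟩

lemma jj_cont : Continuous jj := by
  apply Continuous.subtype_mk
  refine continuous_pi fun n => ?_
  exact ((continuous_apply n).comp continuous_subtype_val).prodMk continuous_const

lemma jj_inj : Injective jj := by
  intro x y h
  apply Subtype.ext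
  funext n
  have h1 : (jj x).1 n = (jj y).1 n := by rw [h]
  exact congrArg Prod.fst h1

lemma jj_emb : IsClosedEmbedding jj := jj_cont.isClosedEmbedding jj_inj

lemma shift_jj (x : Sol) : shift ff (jj x) = jj (sg x) := by
  apply Subtype.ext
  funext n
  cases n with
  | zero => exact ff_circle _
  | succ n => rfl

lemma zeroth_jj (x : Sol) : zeroth (jj x) = (ev0 x, 0) := rfl

/-- first coordinates of a backward orbit -/
noncomputable def fs (x : NatExt ff) : Sol := ⟨fun n => (x.1 n).1, by
  intro n
  show (-2 : ℤ) • (x.1 (n + 1)).1 = (x.1 n).1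
  have h := x.2 n
  obtain ⟨z, hz⟩ := pr_surj (x.1 (n + 1))
  rw [← hz, ff_pr] at h
  rw [← h, ← hz]
  show (-2 : ℤ) • (z.1 : UnitAddCircle) = ((-2 * z.1 : ℝ) : UnitAddCircle)
  rw [← AddCircle.coe_zsmul]
  simp⟩

lemma fs_cont : Continuous fs := by
  apply Continuous.subtype_mk
  refine continuous_pi fun n => ?_
  exact continuous_fst.comp ((continuous_apply n).comp continuous_subtype_val)

lemma fs_jj (x : Sol) : fs (jj x) = x := rfl

/-- second coordinates -/
def sn (x : NatExt ff) : ℕ → UnitAddCircle := fun n => (x.1 n).2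

lemma sn_cont : Continuous sn :=
  continuous_pi fun n => continuous_snd.comp ((continuous_apply n).comp continuous_subtype_val)

lemma sn_jj (x : Sol) : sn (jj x) = 0 := rfl

lemma eq_jj {x : NatExt ff} (h : sn x = 0) : x = jj (fs x) := by
  apply Subtype.ext
  funext n
  have h1 := congrFun h n
  exact Prod.ext rfl h1

/-- the invariant measure -/
noncomputable def mu : Measure Torus := (volume : Measure UnitAddCircle).map fun a => (a, 0)

/-- its lift -/
noncomputable def muh : Measure (NatExt ff) := mS.map jj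

lemma iota_mp : MeasurePreserving (fun a : UnitAddCircle => ((a, 0) : Torus)) volume mu :=
  ⟨by fun_prop, rfl⟩

lemma jj_mp : MeasurePreserving jj mS muh := ⟨jj_cont.measurable, rfl⟩

instance : IsProbabilityMeasure mu :=
  Measure.isProbabilityMeasure_map iota_mp.measurable.aemeasurable
instance : IsProbabilityMeasure muh :=
  Measure.isProbabilityMeasure_map jj_mp.measurable.aemeasurable

lemma zeroth_cont {f : Torus → Torus} : Continuous (zeroth (f := f)) :=
  (continuous_apply 0).comp continuous_subtype_val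

lemma shift_cont : Continuous (shift ff) := by
  apply Continuous.subtype_mk
  refine continuous_pi fun n => ?_
  cases n with
  | zero => exact ff_cont.comp zeroth_cont
  | succ n => exact (continuous_apply n).comp continuous_subtype_val

theorem isLift : IsLiftOf ff mu muh where
  invariant := by
    refine ⟨shift_cont.measurable, ?_⟩
    unfold muh
    rw [Measure.map_map shift_cont.measurable jj_cont.measurable]
    have : shift ff ∘ jj = jj ∘ sg := by
      funext x
      exact shift_jj x
    rw [this, ← Measure.map_map jj_cont.measurable sg_cont.measurable, sg_mp.map_eq]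
  projects := by
    refine ⟨zeroth_cont.measurable, ?_⟩
    unfold muh mu
    rw [Measure.map_map zeroth_cont.measurable jj_cont.measurable, ← ev0_mp.map_eq,
      Measure.map_map (by fun_prop) ev0_cont.measurable]
    rfl

theorem mu_ergodic : Ergodic ff mu := by
  have h := AddCircle.ergodic_zsmul (T := (1 : ℝ)) (n := -2) (by norm_num)
  refine iota_mp.ergodic_of_ergodic_semiconj (hf := h) ff_cont.measurable ?_
  intro a
  exact (ff_circle a).symm

lemma rep_u {u : ℝ} (hu : u ∈ Ioo (0 : ℝ) 1) : rep (u : UnitAddCircle) = u :=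
  rep_coe ⟨hu.1, hu.2.le⟩

/-- the plaque through `w` -/
noncomputable def pl (w : Sol) (u : ℝ) : Sol := rho w + tau u

lemma pl_cont_right (w : Sol) : Continuous (pl w) := continuous_const.add tau_cont

lemma ev0_pl (w : Sol) (u : ℝ) : ev0 (pl w u) = (u : UnitAddCircle) := by
  unfold pl
  rw [map_add, rho_ev0, zero_add, ev0_tau]

lemma rho_pl (w : Sol) {u : ℝ} (hu : u ∈ Ioo (0 : ℝ) 1) : rho (pl w u) = rho w := by
  have h : rho (pl w u) = pl w u - tau (rep (ev0 (pl w u))) := rfl
  rw [h, ev0_pl, rep_u hu]
  unfold pl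
  abel

lemma eq_pl (w : Sol) : w = pl w (rep (ev0 w)) := (rho_add w).symm

theorem prod_map : (mS.prod v01).map (fun p : Sol × ℝ => pl p.1 p.2) = mS := by
  have hm : Measurable (fun p : Sol × ℝ => pl p.1 p.2) :=
    (rho_meas.comp measurable_fst).add (tau_cont.measurable.comp measurable_snd)
  have : IsFiniteMeasure ((mS.prod v01).map (fun p : Sol × ℝ => pl p.1 p.2)) :=
    Measure.isFiniteMeasure_map _ _
  apply MeasureTheory.ext_of_forall_integral_eq_of_IsFiniteMeasure
  intro ψ
  rw [integral_map hm.aemeasurable ψ.continuous.measurable.aestronglyMeasurable, disint ψ ψ.continuous]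
  rw [integral_prod]
  · refine integral_congr_ae (Eventually.of_forall fun w => ?_)
    simp only
    rw [intervalIntegral.integral_of_le zero_le_one, integral_Ioc_eq_integral_Ioo]
    rfl
  · refine Integrable.of_bound (ψ.continuous.measurable.comp hm).aestronglyMeasurable ‖ψ‖
      (Eventually.of_forall fun p => ψ.norm_coe_le_norm _)

/-- the base of the partition -/
abbrev ZZ : Type := Sol × (ℕ → UnitAddCircle) × ℝ

instance : StandardBorelSpace Sol :=
  Sol_closed.measurableSet.standardBorel

open Classical in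
/-- the partition into plaques -/
noncomputable def qq (x : NatExt ff) : ZZ :=
  (rho (fs x), sn x, indicator {x : NatExt ff | ev0 (fs x) = 0} (fun _ => (1 : ℝ)) x)

lemma qq_meas : Measurable qq := by
  have h1 : Measurable fun x : NatExt ff => rho (fs x) := rho_meas.comp fs_cont.measurable
  have h2 : MeasurableSet {x : NatExt ff | ev0 (fs x) = 0} :=
    (isClosed_eq (ev0_cont.comp fs_cont) continuous_const).measurableSet
  exact h1.prodMk (sn_cont.measurable.prodMk (measurable_const.indicator h2))

lemma tau_int_cont (z : ZZ) : Continuous fun u : ℝ => jj (z.1 + tau u) :=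
  jj_cont.comp (continuous_const.add tau_cont)

/-- conditional measures -/
noncomputable def KK : ProbabilityTheory.Kernel ZZ (NatExt ff) :=
  ((ProbabilityTheory.Kernel.id (α := ZZ)).prod
    (ProbabilityTheory.Kernel.const ZZ v01)).map fun p : ZZ × ℝ => jj (p.1.1 + tau p.2)

lemma KK_meas : Measurable fun p : ZZ × ℝ => jj (p.1.1 + tau p.2) :=
  jj_cont.measurable.comp
    ((measurable_fst.comp measurable_fst).add (tau_cont.measurable.comp measurable_snd))

lemma KK_apply (z : ZZ) : KK z = v01.map fun u => jj (z.1 + tau u) := by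
  unfold KK
  rw [ProbabilityTheory.Kernel.map_apply _ KK_meas, ProbabilityTheory.Kernel.prod_apply,
    ProbabilityTheory.Kernel.id_apply, ProbabilityTheory.Kernel.const_apply, Measure.dirac_prod,
    Measure.map_map KK_meas measurable_prodMk_left]
  rfl

instance : ProbabilityTheory.IsMarkovKernel KK :=
  ProbabilityTheory.Kernel.IsMarkovKernel.map _ KK_meas

lemma bind_eq : (muh.map qq).bind KK = muh := by
  ext A hA
  rw [Measure.bind_apply hA KK.measurable.aemeasurable,
    lintegral_map (KK.measurable_coe hA) qq_meas]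
  unfold muh
  rw [lintegral_map (f := fun a => KK (qq a) A) ((KK.measurable_coe hA).comp qq_meas)
    jj_cont.measurable, Measure.map_apply jj_cont.measurable hA]
  have hm : Measurable (fun p : Sol × ℝ => pl p.1 p.2) :=
    (rho_meas.comp measurable_fst).add (tau_cont.measurable.comp measurable_snd)
  conv_rhs => rw [← prod_map]
  rw [Measure.map_apply hm (jj_cont.measurable hA), Measure.prod_apply (hm (jj_cont.measurable hA))]
  refine lintegral_congr fun w => ?_
  rw [KK_apply, Measure.map_apply (tau_int_cont _).measurable hA]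
  rfl

lemma norm_coe_le (x : ℝ) : ‖(x : UnitAddCircle)‖ ≤ |x| := by
  rw [UnitAddCircle.norm_eq]
  have := round_le x 0
  simpa using this

lemma arc_emb : IsEmbedding (fun t : Ioo (0 : ℝ) 1 => proj ((t : ℝ), 0)) := by
  have h1 := (AddCircle.openPartialHomeomorphCoe (1 : ℝ) 0).isOpenEmbedding_restrict.isEmbedding
  have h3 : (AddCircle.openPartialHomeomorphCoe (1 : ℝ) 0).source = Ioo (0 : ℝ) 1 := by
    simp [AddCircle.openPartialHomeomorphCoe]
  have h2 : IsEmbedding (fun t : Ioo (0 : ℝ) 1 => ((t : ℝ) : UnitAddCircle)) := by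
    rw [h3] at h1
    exact h1
  exact (isEmbedding_prodMkLeft (((0 : ℝ)) : UnitAddCircle)).comp h2

lemma proj_zero (t : ℝ) : proj (t, 0) = ((t : UnitAddCircle), (0 : UnitAddCircle)) := rfl

lemma ae_ev0 : ∀ᵐ y ∂mS, ev0 y ≠ 0 := by
  have h3 : volume ({0} : Set UnitAddCircle) = 0 := by
    rw [← Metric.closedBall_zero, AddCircle.volume_closedBall]
    simp
  have h4 : mS (ev0 ⁻¹' {0}) = 0 := by
    rw [ev0_mp.measure_preimage (measurableSet_singleton _).nullMeasurableSet]
    exact h3
  rw [ae_iff]
  refine measure_mono_null ?_ h4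
  intro y hy
  by_contra h
  exact hy h

theorem hasAC : HasACConditionals muh := by
  refine ⟨ZZ, inferInstance, inferInstance, qq, KK, qq_meas, inferInstance, bind_eq, ?_⟩
  have hemb : MeasurableEmbedding jj := jj_emb.measurableEmbedding
  unfold muh
  rw [hemb.ae_map_iff]
  filter_upwards [ae_ev0] with y hy
  -- description of the fibre
  have hq : ∀ w : Sol, ev0 w ≠ 0 → qq (jj w) = (rho w, 0, 0) := by
    intro w hw
    unfold qq
    rw [fs_jj, sn_jj, indicator_of_notMem]
    show ¬ ev0 (fs (jj w)) = 0
    rw [fs_jj]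
    exact hw
  have hu0 : ∀ u ∈ Ioo (0 : ℝ) 1, ((u : ℝ) : UnitAddCircle) ≠ 0 := by
    intro u hu h0
    have h1 : ((u : ℝ) : UnitAddCircle) = ((0 : ℝ) : UnitAddCircle) := h0
    obtain ⟨n, hn⟩ := coe_eq_iff.mp h1
    rw [zero_add] at hn
    rw [hn] at hu
    have a1 : 0 < n := by exact_mod_cast hu.1
    have a2 : n < 1 := by exact_mod_cast hu.2
    omega
  have hqpl : ∀ u ∈ Ioo (0 : ℝ) 1, qq (jj (pl y u)) = qq (jj y) := by
    intro u hu
    rw [hq y hy, hq _ (by rw [ev0_pl]; exact hu0 u hu), rho_pl y hu]
  have hfib : ∀ x', qq x' = qq (jj y) → ∃ u ∈ Ioo (0 : ℝ) 1, x' = jj (pl y u) := by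
    intro x' hx'
    rw [hq y hy] at hx'
    unfold qq at hx'
    rw [Prod.mk.injEq, Prod.mk.injEq] at hx'
    obtain ⟨h1, h2, h3⟩ := hx'
    have h4 := eq_jj h2
    have h5 : ev0 (fs x') ≠ 0 := by
      intro h0
      rw [indicator_of_mem (by exact h0)] at h3
      norm_num at h3
    have h6 : rep (ev0 (fs x')) ≠ 1 := by
      intro h0
      apply h5
      rw [← coe_rep (ev0 (fs x')), h0]
      exact coe_eq_iff.mpr ⟨1, by norm_num⟩
    refine ⟨rep (ev0 (fs x')), ⟨(rep_mem _).1, lt_of_le_of_ne (rep_mem _).2 h6⟩, ?_⟩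
    conv_lhs => rw [h4, eq_pl (fs x')]
    unfold pl
    rw [h1]
  have hzpl : ∀ u, zeroth (jj (pl y u)) = proj (u, 0) := by
    intro u
    rw [zeroth_jj, ev0_pl]
    rfl
  refine ⟨?_, ?_, fun t => (t, 0), 0, 1, one_pos, contDiff_id.prodMk contDiff_const, ?_, arc_emb,
    ?_, ?_⟩
  · rw [KK_apply, Measure.map_apply (tau_int_cont _).measurable
      (qq_meas (measurableSet_singleton _)).compl, hq y hy]
    rw [Measure.restrict_apply' measurableSet_Ioo]
    convert measure_empty (μ := volume)
    ext u
    simp only [mem_inter_iff, mem_preimage, mem_compl_iff, mem_singleton_iff, mem_empty_iff_false,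
      iff_false, not_and]
    intro h1 hu
    apply h1
    have := hqpl u hu
    rw [hq y hy] at this
    exact this
  · intro x' hx'
    obtain ⟨u, hu, rfl⟩ := hfib x' hx'
    refine ⟨|rep (ev0 y) - u|, 1 / 2, by norm_num, by norm_num, fun n => ?_⟩
    have h1 : (jj y).1 n - (jj (pl y u)).1 n
        = ((((rep (ev0 y) - u) / (-2) ^ n : ℝ) : UnitAddCircle), 0) := by
      have h2 : y.1 n = (rho y).1 n + ((rep (ev0 y) / (-2) ^ n : ℝ) : UnitAddCircle) :=
        congrArg (fun w : Sol => w.1 n) (rho_add y).symm
      have h3 : (pl y u).1 n = (rho y).1 n + ((u / (-2) ^ n : ℝ) : UnitAddCircle) := rfl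
      show (y.1 n - (pl y u).1 n, (0 : UnitAddCircle) - 0) = _
      rw [h2, h3, sub_div, AddCircle.coe_sub, sub_zero]
      congr 1
      abel
    rw [dist_eq_norm, h1, Prod.norm_def]
    simp only [norm_zero]
    rw [max_eq_left (norm_nonneg _)]
    refine (norm_coe_le _).trans (le_of_eq ?_)
    rw [abs_div, abs_pow, abs_neg, abs_two, one_div, inv_pow, div_eq_mul_inv]
  · intro t _
    have h1 : HasDerivAt (fun t : ℝ => ((t, 0) : ℝ × ℝ)) (1, 0) t :=
      (hasDerivAt_id t).prodMk (hasDerivAt_const t 0)
    rw [h1.deriv]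
    intro h2
    have := congrArg Prod.fst h2
    norm_num at this
  · refine ⟨?_, ?_, ?_⟩
    · intro x' hx'
      obtain ⟨u, hu, rfl⟩ := hfib x' hx'
      exact ⟨u, hu, (hzpl u).symm⟩
    · intro x1 hx1 x2 hx2 h12
      obtain ⟨u1, hu1, rfl⟩ := hfib x1 hx1
      obtain ⟨u2, hu2, rfl⟩ := hfib x2 hx2
      rw [hzpl, hzpl] at h12
      have h3 : ((u1 : ℝ) : UnitAddCircle) = u2 := congrArg Prod.fst h12
      have h4 := congrArg rep h3
      rw [rep_u hu1, rep_u hu2] at h4
      rw [h4]
    · rintro w ⟨u, hu, rfl⟩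
      exact ⟨jj (pl y u), hqpl u hu, hzpl u⟩
  · rw [KK_apply, Measure.map_map zeroth_cont.measurable (tau_int_cont _).measurable, hq y hy]
    have h1 : zeroth ∘ (fun u : ℝ => jj (rho y + tau u)) = proj ∘ fun t : ℝ => (t, 0) := by
      funext u
      exact hzpl u
    show Measure.map (zeroth ∘ (fun u : ℝ => jj (rho y + tau u))) v01 ≪ _
    rw [h1]

end Pool.Agent.H165S
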