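import Pool.Agent.H165S.Cond

/-!
# Hyperbolicity and dissipativity
-/

set_option autoImplicit false

open Set Filter Topology MeasureTheory Function
open scoped ContDiff ENNReal Real

namespace Pool.Agent.H165S

open Pool.Agent.H165R3

lemma norm_diag (a b : ℝ) : ‖tri a 0 b‖ = max |a| |b| := by
  apply le_antisymm
  · refine ContinuousLinearMap.opNorm_le_bound _ (by positivity) fun z => ?_
    rw [tri_apply, Prod.norm_def]
    have h1 : |z.1| ≤ ‖z‖ := by rw [Prod.norm_def]; exact le_max_left _ _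
    have h2 : |z.2| ≤ ‖z‖ := by rw [Prod.norm_def]; exact le_max_right _ _
    simp only [Real.norm_eq_abs, zero_mul, zero_add, abs_mul]
    apply max_le
    · exact mul_le_mul (le_max_left _ _) h1 (abs_nonneg _) (by positivity)
    · exact mul_le_mul (le_max_right _ _) h2 (abs_nonneg _) (by positivity)
  · exact max_le (Sk.tri_norm_ge_a _ _ _) (Sk.tri_norm_ge_b _ _ _)

lemma conorm_diag (a b : ℝ) : conorm (tri a 0 b) = min |a| |b| := by
  have h10 : ‖((1 : ℝ), (0 : ℝ))‖ = 1 := by simp [Prod.norm_def]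
  have h01 : ‖((0 : ℝ), (1 : ℝ))‖ = 1 := by simp [Prod.norm_def]
  have hbdd : BddBelow (range fun v : {v : ℝ × ℝ // ‖v‖ = 1} => ‖tri a 0 b v.1‖) :=
    ⟨0, by rintro _ ⟨v, rfl⟩; exact norm_nonneg _⟩
  apply le_antisymm
  · refine le_min ?_ ?_
    · refine (ciInf_le hbdd (⟨(1, 0), h10⟩ : {v : ℝ × ℝ // ‖v‖ = 1})).trans ?_
      simp [Prod.norm_def]
    · refine (ciInf_le hbdd (⟨(0, 1), h01⟩ : {v : ℝ × ℝ // ‖v‖ = 1})).trans ?_
      simp [Prod.norm_def]
  · have : Nonempty {v : ℝ × ℝ // ‖v‖ = 1} := ⟨⟨(0, 1), h01⟩⟩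
    refine le_ciInf fun v => ?_
    have hv := v.2
    rw [Prod.norm_def] at hv
    rw [tri_apply, Prod.norm_def]
    simp only [Real.norm_eq_abs, zero_mul, zero_add, abs_mul] at hv ⊢
    rcases max_choice |v.1.1| |v.1.2| with h | h
    · rw [h] at hv
      refine (min_le_left _ _).trans (le_trans ?_ (le_max_left _ _))
      rw [hv, mul_one]
    · rw [h] at hv
      refine (min_le_right _ _).trans (le_trans ?_ (le_max_right _ _))
      rw [hv, mul_one]

/-- logarithm of the multiplier -/
noncomputable def lc (x : ℝ) : ℝ := Real.cos (2 * π * x) - 1 / 10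

lemma log_cc (x : ℝ) : Real.log (cc x) = lc x := by unfold cc lc; rw [Real.log_exp]

lemma lc_per (x : ℝ) : lc (x + 1) = lc x := by rw [← log_cc, ← log_cc, cc_per]

lemma lc_rep (x : ℝ) : lc (rep (x : UnitAddCircle)) = lc x := by
  obtain ⟨n, hn⟩ := coe_eq_iff.mp (coe_rep (x : UnitAddCircle))
  rw [hn]
  exact per_int lc_per x n

lemma lc_int : ∫ a : UnitAddCircle, lc (rep a) = -(1 / 10) := by
  rw [← AddCircle.intervalIntegral_preimage (1 : ℝ) 0]
  simp only [lc_rep, zero_add]
  unfold lc
  rw [intervalIntegral.integral_sub]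
  · have h1 : ∫ x in (0 : ℝ)..1, Real.cos (2 * π * x) = 0 := by
      rw [intervalIntegral.integral_comp_mul_left (fun x => Real.cos x) (by positivity)]
      simp
    rw [h1]
    simp
  · exact (Real.continuous_cos.comp (by fun_prop)).intervalIntegrable _ _
  · exact continuous_const.intervalIntegrable _ _

lemma zsmul_iter (n : ℕ) (x : ℝ) :
    (fun a : UnitAddCircle => (-2 : ℤ) • a)^[n] (x : UnitAddCircle)
      = (((-2) ^ n * x : ℝ) : UnitAddCircle) := by
  induction n with
  | zero => simp
  | succ n ih =>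
    rw [iterate_succ_apply', ih, ← AddCircle.coe_zsmul]
    congr 1
    rw [zsmul_eq_mul]
    push_cast
    ring

theorem hyp : IsHyperbolic FF mu := by
  have hemb : MeasurableEmbedding (fun a : UnitAddCircle => ((a, 0) : Torus)) := by
    have h1 : Continuous (fun a : UnitAddCircle => ((a, 0) : Torus)) := by fun_prop
    have h2 : Injective (fun a : UnitAddCircle => ((a, 0) : Torus)) := fun a b h =>
      congrArg Prod.fst h
    exact (h1.isClosedEmbedding h2).measurableEmbedding
  unfold IsHyperbolic mu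
  rw [hemb.ae_map_iff]
  have hm : Measurable fun a : UnitAddCircle => lc (rep a) := by
    have : Continuous lc := by unfold lc; fun_prop
    exact this.measurable.comp rep_meas
  have hb := birkhoff (AddCircle.ergodic_zsmul (T := (1 : ℝ)) (n := -2) (by norm_num))
    (fun a => lc (rep a)) hm ⟨2, fun a => by
      unfold lc
      have h1 := Real.neg_one_le_cos (2 * π * rep a)
      have h2 := Real.cos_le_one (2 * π * rep a)
      rw [abs_le]
      constructor <;> linarith⟩
  rw [lc_int] at hb
  filter_upwards [hb] with a ha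
  intro z hz
  have hz1 : (z.1 : UnitAddCircle) = a := congrArg Prod.fst hz
  have hz2 : (z.2 : UnitAddCircle) = ((0 : ℝ) : UnitAddCircle) := congrArg Prod.snd hz
  obtain ⟨m, hm⟩ := coe_eq_iff.mp hz2
  rw [zero_add] at hm
  obtain ⟨x, y⟩ := z
  simp only at hz1 hm
  subst hm
  subst hz1
  simp only [zsmul_iter, lc_rep] at ha
  have hlog : ∀ n, Real.log (cP n x) = ∑ k ∈ Finset.range n, lc ((-2) ^ k * x) := by
    intro n
    unfold cP
    rw [Real.log_prod (fun _ _ => (cc_pos _).ne')]
    simp only [log_cc]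
  simp only [← hlog] at ha
  have hder : ∀ n : ℕ, fderiv ℝ (FF^[n]) (x, (m : ℝ)) = tri ((-2) ^ n) 0 (cP n x) := fun n =>
    (FF_iter_deriv m x n).fderiv
  have hev : ∀ᶠ n : ℕ in atTop, cP n x < 1 := by
    have h1 : ∀ᶠ n : ℕ in atTop, (n : ℝ)⁻¹ * Real.log (cP n x) < 0 :=
      ha.eventually (gt_mem_nhds (by norm_num))
    filter_upwards [h1, eventually_gt_atTop 0] with n hn hn0
    have h2 : (0 : ℝ) < n := by exact_mod_cast hn0
    have h3 : Real.log (cP n x) < 0 := by
      by_contra h
      push Not at h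
      have := mul_nonneg (inv_pos.mpr h2).le h
      linarith
    exact (Real.log_neg_iff (cP_pos n x)).mp h3
  have habs : ∀ n : ℕ, |((-2 : ℝ)) ^ n| = 2 ^ n := fun n => by rw [abs_pow, abs_neg, abs_two]
  refine ⟨-(1 / 10), Real.log 2, by norm_num, Real.log_pos (by norm_num), ?_, ?_⟩
  · refine tendsto_const_nhds.congr' ?_
    filter_upwards [hev, eventually_gt_atTop 0] with n hn hn0
    have h2 : (n : ℝ) ≠ 0 := by exact_mod_cast hn0.ne'
    have h3 : (1 : ℝ) ≤ 2 ^ n := one_le_pow₀ (by norm_num)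
    rw [hder, norm_diag, habs, abs_of_pos (cP_pos n x), max_eq_left (by linarith), Real.log_pow]
    field_simp
  · refine ha.congr' ?_
    filter_upwards [hev] with n hn
    have h3 : (1 : ℝ) ≤ 2 ^ n := one_le_pow₀ (by norm_num)
    rw [hder, conorm_diag, habs, abs_of_pos (cP_pos n x), min_eq_right (by linarith), one_div]

/-! dissipativity -/

lemma exists_lift {a : UnitAddCircle} {x0 ε : ℝ} (h : a ∈ Metric.closedBall (x0 : UnitAddCircle) ε) :
    ∃ x : ℝ, (x : UnitAddCircle) = a ∧ |x - x0| ≤ ε := by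
  obtain ⟨y, hy⟩ : ∃ y : ℝ, (y : UnitAddCircle) = a := ⟨rep a, coe_rep a⟩
  rw [Metric.mem_closedBall, dist_eq_norm, ← hy, ← AddCircle.coe_sub, UnitAddCircle.norm_eq] at h
  refine ⟨y - round (y - x0), ?_, ?_⟩
  · rw [← hy]
    exact coe_eq_iff.mpr ⟨-round (y - x0), by push_cast; ring⟩
  · rw [show y - round (y - x0) - x0 = y - x0 - round (y - x0) by ring]
    exact h

lemma mem_ball_coe {x x0 ε : ℝ} (h : |x - x0| ≤ ε) :
    (x : UnitAddCircle) ∈ Metric.closedBall (x0 : UnitAddCircle) ε := by
  rw [Metric.mem_closedBall, dist_eq_norm, ← AddCircle.coe_sub]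
  exact (norm_coe_le _).trans h

lemma bb_cont : Continuous bb := by
  unfold bb
  have h1 : Continuous cc := cc_contDiff.continuous
  have h2 : Continuous ph' := by unfold ph'; fun_prop
  exact continuous_const.add (((h1.comp continuous_fst).sub continuous_const).mul
    (h2.comp continuous_snd))

lemma bb_half : bb (0, 1 / 2) < 2 / 5 := by
  unfold bb
  simp only [cc_zero, ph'_half]
  have := exp_bd2
  linarith

theorem diss : IsDissipative ff := by
  intro ρ hρ hpos hmp
  set w0 : Torus := (((0 : ℝ) : UnitAddCircle), ((1 / 2 : ℝ) : UnitAddCircle)) with hw0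
  set r0 := ρ w0 with hr0
  have hr0pos : 0 < r0 := hpos w0
  -- the density is almost constant near the point
  obtain ⟨r1, hr1, h1⟩ : ∃ r1 > 0, ∀ w, dist w w0 < r1 → |ρ w - r0| < r0 / 25 := by
    have := Metric.continuous_iff.mp hρ w0 (r0 / 25) (by positivity)
    simpa [Real.dist_eq] using this
  -- the fibre derivative is small near the point
  obtain ⟨r2, hr2, h2⟩ : ∃ r2 > 0, ∀ z : ℝ × ℝ, dist z (0, 1 / 2) < r2 → bb z < 9 / 20 := by
    have h3 : ∀ᶠ z in 𝓝 ((0 : ℝ), (1 / 2 : ℝ)), bb z < 9 / 20 :=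
      bb_cont.continuousAt.eventually (gt_mem_nhds (lt_trans bb_half (by norm_num)))
    obtain ⟨r, hr, h⟩ := Metric.eventually_nhds_iff.mp h3
    exact ⟨r, hr, fun z hz => h hz⟩
  set ε := min (min (r1 / 4) (r2 / 2)) (1 / 8) with hε
  have hεpos : 0 < ε := by positivity
  have hε1 : ε ≤ r1 / 4 := (min_le_left _ _).trans (min_le_left _ _)
  have hε2 : ε ≤ r2 / 2 := (min_le_left _ _).trans (min_le_right _ _)
  have hε3 : ε ≤ 1 / 8 := min_le_right _ _
  set B : Set Torus := Metric.closedBall ((0 : ℝ) : UnitAddCircle) ε ×ˢ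
    Metric.closedBall ((1 / 2 : ℝ) : UnitAddCircle) ε with hB
  set R : Set Torus := Metric.closedBall ((0 : ℝ) : UnitAddCircle) (2 * ε) ×ˢ
    Metric.closedBall ((1 / 2 : ℝ) : UnitAddCircle) (9 / 20 * ε) with hR
  have hsub : B ⊆ ff ⁻¹' R := by
    rintro ⟨a, b⟩ ⟨ha, hb⟩
    obtain ⟨x, rfl, hx⟩ := exists_lift ha
    obtain ⟨y, rfl, hy⟩ := exists_lift hb
    rw [sub_zero] at hx
    have h3 : ff (((x : ℝ) : UnitAddCircle), ((y : ℝ) : UnitAddCircle)) = pr (FF (x, y)) :=
      ff_pr (x, y)
    rw [mem_preimage, h3]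
    refine ⟨?_, ?_⟩
    · apply mem_ball_coe
      show |-2 * x - 0| ≤ 2 * ε
      rw [sub_zero, abs_mul, abs_neg, abs_two]
      linarith
    · apply mem_ball_coe
      show |y + (cc x - 1) * ph y - 1 / 2| ≤ 9 / 20 * ε
      set I : Set ℝ := Icc (1 / 2 - ε) (1 / 2 + ε) with hI
      have hconv : Convex ℝ I := convex_Icc _ _
      have hd : ∀ t ∈ I, HasDerivWithinAt (fun t => t + (cc x - 1) * ph t) (bb (x, t)) I t := by
        intro t _
        have h5 := (hasDerivAt_id t).add ((ph_deriv t).const_mul (cc x - 1))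
        exact HasDerivAt.hasDerivWithinAt h5
      have hbd : ∀ t ∈ I, ‖bb (x, t)‖ ≤ 9 / 20 := by
        intro t ht
        rw [Real.norm_of_nonneg (bb_pos _).le]
        apply (h2 (x, t) _).le
        rw [Prod.dist_eq]
        simp only [Real.dist_eq, sub_zero]
        have h6 : |t - 1 / 2| ≤ ε := abs_le.mpr ⟨by linarith [ht.1], by linarith [ht.2]⟩
        exact max_lt (by linarith) (by linarith)
      have h7 : (1 / 2 : ℝ) ∈ I := ⟨by linarith, by linarith⟩
      have h8 : y ∈ I := ⟨by linarith [(abs_le.mp hy).1], by linarith [(abs_le.mp hy).2]⟩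
      have h9 := hconv.norm_image_sub_le_of_norm_hasDerivWithin_le hd hbd h7 h8
      simp only [ph_half, mul_zero, add_zero, Real.norm_eq_abs] at h9
      refine h9.trans ?_
      exact mul_le_mul_of_nonneg_left hy (by norm_num)
  have hBm : MeasurableSet B := (Metric.isClosed_closedBall.prod Metric.isClosed_closedBall).measurableSet
  have hRm : MeasurableSet R := (Metric.isClosed_closedBall.prod Metric.isClosed_closedBall).measurableSet
  have hle : densMeasure ρ B ≤ densMeasure ρ R := by
    rw [← hmp.measure_preimage hRm.nullMeasurableSet]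
    exact measure_mono hsub
  have hvB : (volume : Measure Torus) B = ENNReal.ofReal (2 * ε) * ENNReal.ofReal (2 * ε) := by
    rw [hB, Measure.volume_eq_prod, Measure.prod_prod, AddCircle.volume_closedBall,
      AddCircle.volume_closedBall, min_eq_right (by linarith)]
  have hvR : (volume : Measure Torus) R
      = ENNReal.ofReal (2 * (2 * ε)) * ENNReal.ofReal (2 * (9 / 20 * ε)) := by
    rw [hR, Measure.volume_eq_prod, Measure.prod_prod, AddCircle.volume_closedBall,
      AddCircle.volume_closedBall, min_eq_right (by linarith), min_eq_right (by linarith)]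
  have hdist : ∀ w : Torus, w ∈ Metric.closedBall ((0 : ℝ) : UnitAddCircle) (2 * ε) ×ˢ
      Metric.closedBall ((1 / 2 : ℝ) : UnitAddCircle) ε → |ρ w - r0| < r0 / 25 := by
    rintro w ⟨ha, hb⟩
    apply h1
    rw [Prod.dist_eq]
    have ha' := Metric.mem_closedBall.mp ha
    have hb' := Metric.mem_closedBall.mp hb
    exact max_lt (by linarith) (by linarith)
  have hlow : ENNReal.ofReal (24 / 25 * r0) * (volume : Measure Torus) B ≤ densMeasure ρ B := by
    unfold densMeasure
    rw [withDensity_apply _ hBm, ← setLIntegral_const]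
    refine setLIntegral_mono' hBm fun w hw => ENNReal.ofReal_le_ofReal ?_
    have h3 := hdist w ⟨Metric.closedBall_subset_closedBall (by linarith) hw.1, hw.2⟩
    linarith [(abs_lt.mp h3).1]
  have hup : densMeasure ρ R ≤ ENNReal.ofReal (26 / 25 * r0) * (volume : Measure Torus) R := by
    unfold densMeasure
    rw [withDensity_apply _ hRm, ← setLIntegral_const]
    refine setLIntegral_mono' hRm fun w hw => ENNReal.ofReal_le_ofReal ?_
    have h3 := hdist w ⟨hw.1, Metric.closedBall_subset_closedBall (by linarith) hw.2⟩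
    linarith [(abs_lt.mp h3).2]
  have hfin := hlow.trans (hle.trans hup)
  rw [hvB, hvR, ← ENNReal.ofReal_mul (by positivity), ← ENNReal.ofReal_mul (by positivity),
    ← ENNReal.ofReal_mul (by positivity), ← ENNReal.ofReal_mul (by positivity),
    ENNReal.ofReal_le_ofReal_iff (by positivity)] at hfin
  have hpos2 : 0 < r0 * (ε * ε) := by positivity
  nlinarith

theorem endo : IsEndo ff FF where
  lift z := ff_pr z
  smooth := FF_contDiff
  local_diffeo z := by
    rw [(FF_deriv z).fderiv]
    exact ⟨triE _ _ _ (by norm_num) (bb_pos z).ne', rfl⟩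
  noninvertible hinj := by
    have h1 : ff (pr (0, 0)) = ff (pr (1 / 2, 0)) := by
      rw [ff_pr, ff_pr, FF_circle, FF_circle]
      have := pr_add_left 0 0 (-1)
      push_cast at this
      rw [mul_zero, ← this]
      norm_num
    have h2 := hinj h1
    have h3 : ((0 : ℝ) : UnitAddCircle) = ((1 / 2 : ℝ) : UnitAddCircle) := congrArg Prod.fst h2
    obtain ⟨n, hn⟩ := coe_eq_iff.mp h3
    have a1 : (n : ℝ) < 0 := by linarith
    have a2 : (-1 : ℝ) < n := by linarith
    have a3 : n < 0 := by exact_mod_cast a1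
    have a4 : -1 < n := by exact_mod_cast a2
    omega

end Pool.Agent.H165S
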