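import Pool.Agent.H165R3.Nuh

/-!
# The skew product with an invariant circle
-/

set_option autoImplicit false

open Set Filter Topology MeasureTheory Function
open scoped ContDiff ENNReal Real

namespace Pool.Agent.H165S

open Pool.Agent.H165R3

/-- multiplier of the invariant circle -/
noncomputable def cc (x : ℝ) : ℝ := Real.exp (Real.cos (2 * π * x) - 1 / 10)
/-- the shape function -/
noncomputable def ph (y : ℝ) : ℝ := (8 * Real.sin (2 * π * y) + Real.sin (4 * π * y)) / (20 * π)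
/-- its derivative -/
noncomputable def ph' (y : ℝ) : ℝ := (4 * Real.cos (2 * π * y) + Real.cos (4 * π * y)) / 5
/-- derivative of the multiplier -/
noncomputable def cc' (x : ℝ) : ℝ := cc x * (-Real.sin (2 * π * x) * (2 * π))

/-- the lift -/
noncomputable def FF (z : ℝ × ℝ) : ℝ × ℝ := (-2 * z.1, z.2 + (cc z.1 - 1) * ph z.2)

/-- fibre derivative -/
noncomputable def bb (z : ℝ × ℝ) : ℝ := 1 + (cc z.1 - 1) * ph' z.2

lemma cc_contDiff : ContDiff ℝ ∞ cc := by unfold cc; fun_prop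
lemma ph_contDiff : ContDiff ℝ ∞ ph := by unfold ph; fun_prop
lemma FF_contDiff : ContDiff ℝ ∞ FF := by
  unfold FF
  exact (contDiff_const.mul contDiff_fst).prodMk (contDiff_snd.add
    (((cc_contDiff.comp contDiff_fst).sub contDiff_const).mul (ph_contDiff.comp contDiff_snd)))

lemma cc_deriv (x : ℝ) : HasDerivAt cc (cc' x) x := by
  have h := ((hasDerivAt_id x).const_mul (2 * π))
  simp only [id_eq, mul_one] at h
  exact (h.cos.sub_const (1 / 10)).exp

lemma ph_deriv (y : ℝ) : HasDerivAt ph (ph' y) y := by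
  have h1 := ((hasDerivAt_id y).const_mul (2 * π))
  have h2 := ((hasDerivAt_id y).const_mul (4 * π))
  simp only [id_eq, mul_one] at h1 h2
  have h3 := ((h1.sin.const_mul 8).add h2.sin).div_const (20 * π)
  refine HasDerivAt.congr_deriv (f := ph) h3 ?_
  have := Real.pi_pos.ne'
  unfold ph'
  field_simp
  ring

lemma FF_deriv (z : ℝ × ℝ) : HasFDerivAt FF (tri (-2) (cc' z.1 * ph z.2) (bb z)) z := by
  have h1 : HasFDerivAt (fun z : ℝ × ℝ => cc z.1) (cc' z.1 • ContinuousLinearMap.fst ℝ ℝ ℝ) z :=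
    (cc_deriv z.1).comp_hasFDerivAt z hasFDerivAt_fst
  have h2 : HasFDerivAt (fun z : ℝ × ℝ => ph z.2) (ph' z.2 • ContinuousLinearMap.snd ℝ ℝ ℝ) z :=
    (ph_deriv z.2).comp_hasFDerivAt z hasFDerivAt_snd
  have h3 := (hasFDerivAt_snd (p := z) (𝕜 := ℝ)).add ((h1.sub_const 1).mul h2)
  have h4 : HasFDerivAt (fun z : ℝ × ℝ => -2 * z.1) ((-2 : ℝ) • ContinuousLinearMap.fst ℝ ℝ ℝ) z :=
    hasFDerivAt_fst.const_mul _
  have h5 := h4.prodMk h3
  refine h5.congr_fderiv ?_
  apply ContinuousLinearMap.ext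
  intro v
  simp only [tri_apply, bb]
  ext
  · simp
  · simp
    ring

lemma cc_pos (x : ℝ) : 0 < cc x := Real.exp_pos _

lemma cc_le (x : ℝ) : cc x ≤ Real.exp (9 / 10) := by
  apply Real.exp_le_exp.mpr
  linarith [Real.cos_le_one (2 * π * x)]

lemma exp_bd : Real.exp (9 / 10) < 2.6 := by
  have h1 := Real.exp_one_lt_d9
  have h2 : Real.exp (9 / 10) * Real.exp (1 / 10) = Real.exp 1 := by
    rw [← Real.exp_add]; norm_num
  have h3 : 1 + 1 / 10 ≤ Real.exp (1 / 10 : ℝ) := by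
    have := Real.add_one_le_exp (1 / 10 : ℝ)
    linarith
  have h4 := Real.exp_pos (9 / 10 : ℝ)
  nlinarith

lemma exp_bd2 : 2 < Real.exp (9 / 10) := by
  have h1 := Real.log_two_lt_d9
  have h2 : Real.exp (Real.log 2) = 2 := Real.exp_log (by norm_num)
  rw [← h2]
  apply Real.exp_lt_exp.mpr
  linarith

lemma cc_zero : cc 0 = Real.exp (9 / 10) := by
  unfold cc
  rw [mul_zero, Real.cos_zero]
  norm_num

lemma cc_third : cc (1 / 3) < 1 := by
  unfold cc
  have h : Real.cos (2 * π * (1 / 3)) = -1 / 2 := by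
    rw [show 2 * π * (1 / 3) = π - π / 3 by ring, Real.cos_pi_sub, Real.cos_pi_div_three]
    norm_num
  rw [h]
  have h2 : Real.exp (-1 / 2 - 1 / 10) < Real.exp 0 := Real.exp_lt_exp.mpr (by norm_num)
  rwa [Real.exp_zero] at h2

lemma ph'_mem (y : ℝ) : -(3 / 5) ≤ ph' y ∧ ph' y ≤ 1 := by
  unfold ph'
  have h : Real.cos (4 * π * y) = 2 * Real.cos (2 * π * y) ^ 2 - 1 := by
    rw [← Real.cos_two_mul]; ring_nf
  rw [h]
  have h1 := Real.neg_one_le_cos (2 * π * y)
  have h2 := Real.cos_le_one (2 * π * y)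
  constructor <;> nlinarith

lemma bb_pos (z : ℝ × ℝ) : 0 < bb z := by
  unfold bb
  have h1 := cc_pos z.1
  have h2 := cc_le z.1
  have h3 := exp_bd
  obtain ⟨h4, h5⟩ := ph'_mem z.2
  rcases le_total 1 (cc z.1) with h | h
  · nlinarith
  · nlinarith

lemma ph_zero : ph 0 = 0 := by unfold ph; simp
lemma ph'_zero : ph' 0 = 1 := by unfold ph'; simp; norm_num
lemma ph_half : ph (1 / 2) = 0 := by
  unfold ph
  rw [show 2 * π * (1 / 2) = π by ring, show 4 * π * (1 / 2) = 2 * π by ring, Real.sin_pi,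
    Real.sin_two_pi]
  simp
lemma ph'_half : ph' (1 / 2) = -(3 / 5) := by
  unfold ph'
  rw [show 2 * π * (1 / 2) = π by ring, show 4 * π * (1 / 2) = 2 * π by ring, Real.cos_pi,
    Real.cos_two_pi]
  norm_num

lemma cc_per (x : ℝ) : cc (x + 1) = cc x := by
  unfold cc
  rw [show 2 * π * (x + 1) = 2 * π * x + 2 * π by ring, Real.cos_add_two_pi]

lemma ph_per (y : ℝ) : ph (y + 1) = ph y := by
  unfold ph
  rw [show 2 * π * (y + 1) = 2 * π * y + 2 * π by ring,
    show 4 * π * (y + 1) = 4 * π * y + 2 * π + 2 * π by ring, Real.sin_add_two_pi,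
    Real.sin_add_two_pi, Real.sin_add_two_pi]

lemma ph'_per (y : ℝ) : ph' (y + 1) = ph' y := by
  unfold ph'
  rw [show 2 * π * (y + 1) = 2 * π * y + 2 * π by ring,
    show 4 * π * (y + 1) = 4 * π * y + 2 * π + 2 * π by ring, Real.cos_add_two_pi,
    Real.cos_add_two_pi, Real.cos_add_two_pi]

/-- the map of the torus -/
noncomputable def ff : T2 → T2 := tl fun z => pr (FF z)

lemma prF1 (x y : ℝ) : pr (FF (x + 1, y)) = pr (FF (x, y)) := by
  have h : FF (x + 1, y) = ((FF (x, y)).1 + (-2 : ℤ), (FF (x, y)).2) := by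
    unfold FF
    simp only [cc_per]
    ext
    · push_cast; ring
    · rfl
  rw [h, pr_add_left]

lemma prF2 (x y : ℝ) : pr (FF (x, y + 1)) = pr (FF (x, y)) := by
  have h : FF (x, y + 1) = ((FF (x, y)).1, (FF (x, y)).2 + (1 : ℤ)) := by
    unfold FF
    simp only [ph_per]
    ext
    · rfl
    · push_cast; ring
  rw [h, pr_add_right]

lemma ff_pr (z : ℝ × ℝ) : ff (pr z) = pr (FF z) := tl_pr prF1 prF2 z

lemma ff_cont : Continuous ff := tl_cont (pr_cont.comp FF_contDiff.continuous) prF1 prF2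

lemma FF_circle (x : ℝ) : FF (x, 0) = (-2 * x, 0) := by unfold FF; simp [ph_zero]

lemma ff_circle (a : UnitAddCircle) : ff (a, 0) = ((-2 : ℤ) • a, 0) := by
  obtain ⟨x, rfl⟩ : ∃ x : ℝ, (x : UnitAddCircle) = a := ⟨rep a, coe_rep a⟩
  have h : ff (pr (x, 0)) = pr (FF (x, 0)) := ff_pr (x, 0)
  rw [FF_circle] at h
  have h1 : pr (x, 0) = ((x : UnitAddCircle), 0) := rfl
  rw [h1] at h
  rw [h]
  have h2 : ((-2 * x : ℝ) : UnitAddCircle) = (-2 : ℤ) • (x : UnitAddCircle) := by
    rw [← AddCircle.coe_zsmul]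
    simp
  show (((-2 * x : ℝ) : UnitAddCircle), ((0 : ℝ) : UnitAddCircle)) = _
  rw [h2]
  simp

lemma ph_int (m : ℤ) : ph m = 0 := by
  have := per_int (u := ph) ph_per 0 m
  rw [zero_add] at this
  rw [this, ph_zero]

lemma ph'_int (m : ℤ) : ph' m = 1 := by
  have := per_int (u := ph') ph'_per 0 m
  rw [zero_add] at this
  rw [this, ph'_zero]

lemma FF_iter_int (m : ℤ) (x : ℝ) (n : ℕ) : FF^[n] (x, (m : ℝ)) = ((-2) ^ n * x, (m : ℝ)) := by
  induction n with
  | zero => simp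
  | succ n ih =>
    rw [iterate_succ_apply', ih]
    unfold FF
    simp only [ph_int, mul_zero, add_zero]
    ext
    · simp only; ring
    · rfl

/-- product of the multipliers -/
noncomputable def cP (n : ℕ) (x : ℝ) : ℝ := ∏ k ∈ Finset.range n, cc ((-2) ^ k * x)

lemma cP_pos (n : ℕ) (x : ℝ) : 0 < cP n x := Finset.prod_pos fun _ _ => cc_pos _

lemma FF_iter_deriv (m : ℤ) (x : ℝ) (n : ℕ) :
    HasFDerivAt (FF^[n]) (tri ((-2) ^ n) 0 (cP n x)) (x, (m : ℝ)) := by
  induction n with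
  | zero =>
    have h : tri ((-2) ^ 0) 0 (cP 0 x) = ContinuousLinearMap.id ℝ (ℝ × ℝ) := by
      apply ContinuousLinearMap.ext
      intro v
      simp [cP]
    rw [h]
    exact hasFDerivAt_id _
  | succ n ih =>
    have h1 := FF_deriv (FF^[n] (x, (m : ℝ)))
    have h2 := h1.comp (x, (m : ℝ)) ih
    rw [← iterate_succ'] at h2
    refine h2.congr_fderiv ?_
    rw [tri_comp, FF_iter_int]
    simp only [ph_int, bb, ph'_int]
    have e1 : (-2 : ℝ) * (-2) ^ n = (-2) ^ (n + 1) := by ring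
    have e2 : (1 + (cc ((-2) ^ n * x) - 1) * 1) * cP n x = cP (n + 1) x := by
      unfold cP
      rw [Finset.prod_range_succ]
      ring
    rw [e1, e2]
    congr 1
    ring

end Pool.Agent.H165S
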