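import Pool.Agent.H165S.Hyp

/-!
# Absence of domination
-/

set_option autoImplicit false

open Set Filter Topology MeasureTheory Function
open scoped ContDiff ENNReal Real

namespace Pool.Agent.H165S

open Pool.Agent.H165R3

lemma mem_supp (y : Sol) : jj y ∈ muh.support := by
  rw [Measure.mem_support_iff_forall]
  intro U hU
  obtain ⟨V, hVU, hV, hyV⟩ := mem_nhds_iff.mp hU
  have h1 : 0 < muh V := by
    unfold muh
    rw [Measure.map_apply jj_cont.measurable hV.measurableSet]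
    exact (hV.preimage jj_cont).measure_pos mS ⟨y, hyV⟩
  exact h1.trans_le (measure_mono hVU)

lemma line_par {E : Submodule ℝ (ℝ × ℝ)} (h : Module.finrank ℝ E = 1) {u v : ℝ × ℝ} (hu : u ∈ E)
    (hv : v ∈ E) : u.1 * v.2 = u.2 * v.1 := by
  obtain ⟨e, -, he⟩ := finrank_eq_one_iff'.mp h
  obtain ⟨a, ha⟩ := he ⟨u, hu⟩
  obtain ⟨b, hb⟩ := he ⟨v, hv⟩
  have h1 : a • (e : ℝ × ℝ) = u := congrArg Subtype.val ha
  have h2 : b • (e : ℝ × ℝ) = v := congrArg Subtype.val hb
  rw [← h1, ← h2]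
  simp only [Prod.smul_fst, Prod.smul_snd, smul_eq_mul]
  ring

lemma line_ne {E : Submodule ℝ (ℝ × ℝ)} (h : Module.finrank ℝ E = 1) : ∃ e ∈ E, e ≠ 0 := by
  obtain ⟨e, he, -⟩ := finrank_eq_one_iff'.mp h
  exact ⟨e.1, e.2, fun h0 => he (Subtype.ext h0)⟩

lemma dicho {E : Submodule ℝ (ℝ × ℝ)} (h : Module.finrank ℝ E = 1) {a b : ℝ} (hab : a ≠ b)
    (hinv : ∀ e ∈ E, tri a 0 b e ∈ E) : (∀ e ∈ E, e.2 = 0) ∨ (∀ e ∈ E, e.1 = 0) := by
  obtain ⟨e, he, hne⟩ := line_ne h
  have h1 := line_par h he (hinv e he)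
  simp only [tri_apply, zero_mul, zero_add] at h1
  have h2 : e.1 = 0 ∨ e.2 = 0 := by
    by_contra hcon
    push Not at hcon
    apply hab
    have h3 : (e.1 * e.2) * (b - a) = 0 := by linarith
    rcases mul_eq_zero.mp h3 with h4 | h4
    · exact absurd h4 (mul_ne_zero hcon.1 hcon.2)
    · linarith
  rcases h2 with h2 | h2
  · right
    intro u hu
    have h3 := line_par h he hu
    rw [h2, zero_mul] at h3
    have h4 : e.2 ≠ 0 := fun h0 => hne (Prod.ext h2 h0)
    rcases mul_eq_zero.mp h3.symm with h5 | h5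
    · exact absurd h5 h4
    · exact h5
  · left
    intro u hu
    have h3 := line_par h he hu
    rw [h2, zero_mul] at h3
    have h4 : e.1 ≠ 0 := fun h0 => hne (Prod.ext h0 h2)
    rcases mul_eq_zero.mp h3 with h5 | h5
    · exact absurd h5 h4
    · exact h5

lemma mem_of_snd {E : Submodule ℝ (ℝ × ℝ)} (h : Module.finrank ℝ E = 1) (h0 : ∀ e ∈ E, e.2 = 0) :
    ((1 : ℝ), (0 : ℝ)) ∈ E := by
  obtain ⟨e, he, hne⟩ := line_ne h
  have h1 := h0 e he
  have h2 : e.1 ≠ 0 := fun h => hne (Prod.ext h h1)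
  have h3 : ((1 : ℝ), (0 : ℝ)) = (e.1)⁻¹ • e := by
    ext
    · simp [h2]
    · simp [h1]
  rw [h3]
  exact E.smul_mem _ he

lemma mem_of_fst {E : Submodule ℝ (ℝ × ℝ)} (h : Module.finrank ℝ E = 1) (h0 : ∀ e ∈ E, e.1 = 0) :
    ((0 : ℝ), (1 : ℝ)) ∈ E := by
  obtain ⟨e, he, hne⟩ := line_ne h
  have h1 := h0 e he
  have h2 : e.2 ≠ 0 := fun h => hne (Prod.ext h1 h)
  have h3 : ((0 : ℝ), (1 : ℝ)) = (e.2)⁻¹ • e := by
    ext
    · simp [h1]
    · simp [h2]
  rw [h3]
  exact E.smul_mem _ he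

lemma compl_aux {E G : Submodule ℝ (ℝ × ℝ)} (h : IsCompl E G) {u : ℝ × ℝ} (h1 : u ∈ E)
    (h2 : u ∈ G) : u = 0 := by
  have h3 : u ∈ E ⊓ G := ⟨h1, h2⟩
  rw [h.inf_eq_bot] at h3
  exact (Submodule.mem_bot ℝ).mp h3

lemma growth {α β C : ℝ} (hβ : 0 < β) (hαβ : β < α) (h : ∀ n : ℕ, α ^ n ≤ C * β ^ n) : False := by
  have h1 : 1 < α / β := (one_lt_div hβ).mpr hαβ
  obtain ⟨n, hn⟩ := pow_unbounded_of_one_lt C h1
  have h2 := h n
  rw [div_pow, lt_div_iff₀ (pow_pos hβ n)] at hn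
  linarith

/-- the fixed backward orbit over `1/3` -/
noncomputable def qh : Sol := ⟨fun _ => ((1 / 3 : ℝ) : UnitAddCircle), by
  intro n
  show (-2 : ℤ) • ((1 / 3 : ℝ) : UnitAddCircle) = ((1 / 3 : ℝ) : UnitAddCircle)
  rw [← AddCircle.coe_zsmul]
  exact coe_eq_iff.mpr ⟨-1, by rw [zsmul_eq_mul]; push_cast; norm_num⟩⟩

lemma third (k : ℕ) : (((-2) ^ k / 3 : ℝ) : UnitAddCircle) = ((1 / 3 : ℝ) : UnitAddCircle) := by
  induction k with
  | zero => simp
  | succ k ih =>
    have h1 : (((-2) ^ (k + 1) / 3 : ℝ) : UnitAddCircle)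
        = (-2 : ℤ) • (((-2) ^ k / 3 : ℝ) : UnitAddCircle) := by
      rw [← AddCircle.coe_zsmul]
      congr 1
      rw [zsmul_eq_mul, pow_succ]
      push_cast
      ring
    rw [h1, ih]
    exact qh.2 0

lemma tendsto_q : Tendsto (fun m : ℕ => tau ((-2) ^ m / 3)) atTop (𝓝 qh) := by
  rw [tendsto_subtype_rng, tendsto_pi_nhds]
  intro n
  refine tendsto_const_nhds.congr' ?_
  filter_upwards [eventually_ge_atTop n] with m hm
  rw [tau_apply]
  obtain ⟨k, rfl⟩ := Nat.exists_eq_add_of_le hm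
  have h1 : ((-2 : ℝ)) ^ n ≠ 0 := by positivity
  have h2 : ((-2 : ℝ)) ^ (n + k) / 3 / (-2) ^ n = (-2) ^ k / 3 := by
    rw [pow_add]
    field_simp
  rw [h2, third]
  rfl

lemma tendsto_p : Tendsto (fun m : ℕ => tau (1 / 3 / (-2) ^ m)) atTop (𝓝 0) := by
  rw [← tau_zero]
  refine (tau_cont.tendsto 0).comp ?_
  have h1 : Tendsto (fun m : ℕ => (1 / 3 : ℝ) * ((-1 / 2 : ℝ)) ^ m) atTop (𝓝 (1 / 3 * 0)) :=
    (tendsto_pow_atTop_nhds_zero_of_abs_lt_one (by rw [abs_div, abs_neg]; norm_num)).const_mul _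
  rw [mul_zero] at h1
  refine h1.congr fun m => ?_
  show 1 / 3 * (-1 / 2) ^ m = 1 / 3 / (-2) ^ m
  rw [show (-1 / 2 : ℝ) = (-2)⁻¹ by norm_num, inv_pow, ← div_eq_mul_inv]

lemma cP_const {x : ℝ} (h : ∀ k : ℕ, cc ((-2) ^ k * x) = cc x) (n : ℕ) : cP n x = cc x ^ n := by
  unfold cP
  simp only [h, Finset.prod_const, Finset.card_range]

lemma cc_congr {x y : ℝ} (h : (x : UnitAddCircle) = y) : cc x = cc y := by
  obtain ⟨n, hn⟩ := coe_eq_iff.mp h
  rw [hn]
  exact per_int cc_per y n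

theorem noDom : ¬ HasDominatedSplitting ff FF muh.support := by
  rintro ⟨E, G, hE, hG, hcompl, hinv, C, lam, hC, hl0, hl1, hdom⟩
  -- derivative at points of the circle
  have hD : ∀ t : ℝ, fderiv ℝ FF (t, 0) = tri (-2) 0 (cc t) := by
    intro t
    have h := FF_iter_deriv 0 t 1
    rw [iterate_one] at h
    have e : cP 1 t = cc t := by simp [cP]
    rw [e, pow_one] at h
    have h2 := h.fderiv
    simpa using h2
  have hDn : ∀ (t : ℝ) (n : ℕ), fderiv ℝ (FF^[n]) (t, 0) = tri ((-2) ^ n) 0 (cP n t) := by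
    intro t n
    have h := (FF_iter_deriv 0 t n).fderiv
    simpa using h
  have hz : ∀ t : ℝ, proj (t, 0) = zeroth (jj (tau t)) := fun t => by
    rw [zeroth_jj, ev0_tau]; rfl
  have hsh : ∀ t : ℝ, shift ff (jj (tau t)) = jj (tau (-2 * t)) := fun t => by
    rw [shift_jj, sg_tau]
  -- invariance
  have hinvE : ∀ (w : Sol) (t : ℝ), ev0 w = (t : UnitAddCircle) → ∀ e ∈ E (jj w),
      tri (-2) 0 (cc t) e ∈ E (jj (sg w)) := by
    intro w t hw e he
    have h1 := (hinv (jj w) (mem_supp w) (t, 0) (by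
      show ((t : UnitAddCircle), ((0 : ℝ) : UnitAddCircle)) = (ev0 w, 0)
      rw [hw]; rfl)).1
    rw [shift_jj] at h1
    rw [← h1, ← hD t]
    exact Submodule.mem_map_of_mem he
  have hinvG : ∀ (w : Sol) (t : ℝ), ev0 w = (t : UnitAddCircle) → ∀ e ∈ G (jj w),
      tri (-2) 0 (cc t) e ∈ G (jj (sg w)) := by
    intro w t hw e he
    have h1 := (hinv (jj w) (mem_supp w) (t, 0) (by
      show ((t : UnitAddCircle), ((0 : ℝ) : UnitAddCircle)) = (ev0 w, 0)
      rw [hw]; rfl)).2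
    rw [shift_jj] at h1
    rw [← h1, ← hD t]
    exact Submodule.mem_map_of_mem he
  have hsgq : sg qh = qh := by
    apply Subtype.ext
    funext n
    cases n with
    | zero => exact qh.2 0
    | succ n => rfl
  have hsg0 : sg 0 = 0 := map_zero sg
  have hc0 : (2 : ℝ) < cc 0 := by rw [cc_zero]; exact exp_bd2
  have hc1 : cc (1 / 3) < 1 := cc_third
  have hc1p : 0 < cc (1 / 3) := cc_pos _
  have fE : ∀ w, Module.finrank ℝ (E (jj w)) = 1 := fun w => (hE _ (mem_supp w)).1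
  have fG : ∀ w, Module.finrank ℝ (G (jj w)) = 1 := fun w => (hG _ (mem_supp w)).1
  have n10 : ‖((1 : ℝ), (0 : ℝ))‖ = 1 := by simp [Prod.norm_def]
  have n01 : ‖((0 : ℝ), (1 : ℝ))‖ = 1 := by simp [Prod.norm_def]
  -- at the fixed point over `0` the line `E` is horizontal
  have hE0 : ∀ e ∈ E (jj 0), e.2 = 0 := by
    have a1 := hinvE 0 0 rfl
    have a2 := hinvG 0 0 rfl
    rw [hsg0] at a1 a2
    have hne : (-2 : ℝ) ≠ cc 0 := by linarith
    rcases dicho (fE 0) hne a1 with h | h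
    · exact h
    · exfalso
      have h1 : ((0 : ℝ), (1 : ℝ)) ∈ E (jj 0) := mem_of_fst (fE 0) h
      rcases dicho (fG 0) hne a2 with h2 | h2
      · have h3 : ((1 : ℝ), (0 : ℝ)) ∈ G (jj 0) := mem_of_snd (fG 0) h2
        have hcP : ∀ n : ℕ, cP n 0 = cc 0 ^ n := cP_const (fun k => by rw [mul_zero])
        apply growth (α := cc 0) (β := lam * 2) (C := C) (by positivity) (by nlinarith)
        intro n
        have h4 := hdom (jj 0) (mem_supp 0) (0, 0) (by rw [hz 0, tau_zero]) n _ h1 _ h3 n01 n10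
        rw [hDn, hcP] at h4
        simp only [tri_apply, Prod.norm_def, zero_mul, mul_zero, mul_one, add_zero, zero_add,
          norm_zero, Real.norm_eq_abs, abs_pow, abs_neg, abs_two] at h4
        rw [max_eq_right (by positivity), max_eq_left (by positivity),
          abs_of_pos (by linarith : (0 : ℝ) < cc 0), mul_assoc, ← mul_pow] at h4
        exact h4
      · have h3 : ((0 : ℝ), (1 : ℝ)) ∈ G (jj 0) := mem_of_fst (fG 0) h2
        have h4 := compl_aux (hcompl _ (mem_supp 0)) h1 h3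
        have := congrArg Prod.snd h4
        norm_num at this
  -- at the fixed point over `1/3` the line `E` is vertical
  have hEq : ∀ e ∈ E (jj qh), e.1 = 0 := by
    have a1 := hinvE qh (1 / 3) rfl
    have a2 := hinvG qh (1 / 3) rfl
    rw [hsgq] at a1 a2
    have hne : (-2 : ℝ) ≠ cc (1 / 3) := by linarith
    rcases dicho (fE qh) hne a1 with h | h
    · exfalso
      have h1 : ((1 : ℝ), (0 : ℝ)) ∈ E (jj qh) := mem_of_snd (fE qh) h
      rcases dicho (fG qh) hne a2 with h2 | h2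
      · have h3 : ((1 : ℝ), (0 : ℝ)) ∈ G (jj qh) := mem_of_snd (fG qh) h2
        have h4 := compl_aux (hcompl _ (mem_supp qh)) h1 h3
        have := congrArg Prod.fst h4
        norm_num at this
      · have h3 : ((0 : ℝ), (1 : ℝ)) ∈ G (jj qh) := mem_of_fst (fG qh) h2
        have hcP : ∀ n : ℕ, cP n (1 / 3) = cc (1 / 3) ^ n := cP_const (fun k => by
          apply cc_congr
          have := third k
          rw [← this]
          congr 1
          ring)
        apply growth (α := 2) (β := lam * cc (1 / 3)) (C := C) (by positivity) (by nlinarith)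
        intro n
        have h4 := hdom (jj qh) (mem_supp qh) (1 / 3, 0) rfl n _ h1 _ h3 n10 n01
        rw [hDn, hcP] at h4
        simp only [tri_apply, Prod.norm_def, zero_mul, mul_zero, mul_one, add_zero, zero_add,
          norm_zero, Real.norm_eq_abs, abs_pow, abs_neg, abs_two] at h4
        rw [max_eq_left (by positivity), max_eq_right (by positivity),
          abs_of_pos hc1p, mul_assoc, ← mul_pow] at h4
        exact h4
    · exact h
  -- the heteroclinic orbit: forward part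
  have hfor : ∀ u ∈ E (jj (tau (1 / 3))), ∀ m : ℕ,
      ((-2) ^ m * u.1, cc (1 / 3) ^ m * u.2) ∈ E (jj (tau ((-2) ^ m / 3))) := by
    intro u hu m
    induction m with
    | zero => simpa using hu
    | succ m ih =>
      have h1 := hinvE (tau ((-2) ^ m / 3)) (1 / 3) (by rw [ev0_tau, third]) _ ih
      rw [sg_tau] at h1
      have h2 : (-2 : ℝ) * ((-2) ^ m / 3) = (-2) ^ (m + 1) / 3 := by rw [pow_succ]; ring
      rw [h2] at h1
      have h3 : tri (-2) 0 (cc (1 / 3)) ((-2) ^ m * u.1, cc (1 / 3) ^ m * u.2)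
          = ((-2) ^ (m + 1) * u.1, cc (1 / 3) ^ (m + 1) * u.2) := by
        rw [tri_apply, pow_succ, pow_succ]
        ext
        · simp only; ring
        · simp only; ring
      rw [h3] at h1
      exact h1
  have hEz : ∀ u ∈ E (jj (tau (1 / 3))), u.1 = 0 := by
    intro u hu
    obtain ⟨v, hvc, hv0, hvE⟩ := (hE _ (mem_supp qh)).2
    have hvq : v (jj qh) ∈ E (jj qh) := hvE.self_of_nhdsWithin (mem_supp qh)
    have hv1 := hEq _ hvq
    have hv2 : (v (jj qh)).2 ≠ 0 := fun h => hv0 (Prod.ext hv1 h)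
    have hseq : Tendsto (fun m : ℕ => jj (tau ((-2) ^ m / 3))) atTop (𝓝[muh.support] (jj qh)) :=
      tendsto_nhdsWithin_iff.mpr ⟨(jj_cont.tendsto qh).comp tendsto_q,
        Eventually.of_forall fun m => mem_supp _⟩
    have hlim := hvc.tendsto.comp hseq
    have hin := hseq.eventually hvE
    have hl1 : Tendsto (fun m : ℕ => (v (jj (tau ((-2) ^ m / 3)))).1) atTop
        (𝓝 (v (jj qh)).1) := (continuous_fst.tendsto _).comp hlim
    have hl2 : Tendsto (fun m : ℕ => (v (jj (tau ((-2) ^ m / 3)))).2) atTop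
        (𝓝 (v (jj qh)).2) := (continuous_snd.tendsto _).comp hlim
    have hr : Tendsto (fun m : ℕ => (cc (1 / 3) / (-2)) ^ m) atTop (𝓝 0) := by
      apply tendsto_pow_atTop_nhds_zero_of_abs_lt_one
      rw [abs_div, abs_neg, abs_two, abs_of_pos hc1p]
      linarith
    have h5 : Tendsto (fun m : ℕ => (v (jj (tau ((-2) ^ m / 3)))).2 * u.1) atTop
        (𝓝 ((v (jj qh)).2 * u.1)) := hl2.mul_const _
    have h6 : Tendsto (fun m : ℕ => (v (jj (tau ((-2) ^ m / 3)))).1 *
        ((cc (1 / 3) / (-2)) ^ m * u.2)) atTop (𝓝 ((v (jj qh)).1 * (0 * u.2))) :=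
      hl1.mul (hr.mul_const _)
    have h7 : (fun m : ℕ => (v (jj (tau ((-2) ^ m / 3)))).2 * u.1) =ᶠ[atTop]
        (fun m : ℕ => (v (jj (tau ((-2) ^ m / 3)))).1 * ((cc (1 / 3) / (-2)) ^ m * u.2)) := by
      filter_upwards [hin] with m hm
      have h8 := line_par (fE _) hm (hfor u hu m)
      simp only at h8
      have h9 : ((-2 : ℝ)) ^ m ≠ 0 := by positivity
      rw [div_pow]
      field_simp
      linarith
    have h8 := tendsto_nhds_unique (h5.congr' h7) h6
    rw [zero_mul, mul_zero] at h8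
    rcases mul_eq_zero.mp h8 with h9 | h9
    · exact absurd h9 hv2
    · exact h9
  -- backward part
  have hback : ∀ m : ℕ, ∀ e ∈ E (jj (tau (1 / 3 / (-2) ^ m))), e.1 = 0 := by
    intro m
    induction m with
    | zero => simpa using hEz
    | succ m ih =>
      intro e he
      have h1 := hinvE (tau (1 / 3 / (-2) ^ (m + 1))) (1 / 3 / (-2) ^ (m + 1)) (ev0_tau _) e he
      rw [sg_tau] at h1
      have h9 : ((-2 : ℝ)) ^ m ≠ 0 := by positivity
      have h2 : (-2 : ℝ) * (1 / 3 / (-2) ^ (m + 1)) = 1 / 3 / (-2) ^ m := by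
        rw [pow_succ]; field_simp
      rw [h2] at h1
      have h3 := ih _ h1
      simp only [tri_apply] at h3
      linarith
  obtain ⟨v, hvc, hv0, hvE⟩ := (hE _ (mem_supp 0)).2
  have hvp : v (jj 0) ∈ E (jj 0) := hvE.self_of_nhdsWithin (mem_supp 0)
  have hv2 := hE0 _ hvp
  have hv1 : (v (jj 0)).1 ≠ 0 := fun h => hv0 (Prod.ext h hv2)
  have hseq : Tendsto (fun m : ℕ => jj (tau (1 / 3 / (-2) ^ m))) atTop (𝓝[muh.support] (jj 0)) :=
    tendsto_nhdsWithin_iff.mpr ⟨(jj_cont.tendsto 0).comp tendsto_p,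
      Eventually.of_forall fun m => mem_supp _⟩
  have hlim := hvc.tendsto.comp hseq
  have hin := hseq.eventually hvE
  have hl1 : Tendsto (fun m : ℕ => (v (jj (tau (1 / 3 / (-2) ^ m)))).1) atTop
      (𝓝 (v (jj 0)).1) := (continuous_fst.tendsto _).comp hlim
  have hl2 : Tendsto (fun m : ℕ => (v (jj (tau (1 / 3 / (-2) ^ m)))).1) atTop (𝓝 0) := by
    refine tendsto_const_nhds.congr' ?_
    filter_upwards [hin] with m hm
    exact (hback m _ hm).symm
  exact hv1 (tendsto_nhds_unique hl1 hl2)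

end Pool.Agent.H165S
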