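import Pool.Agent.H165S.Map

/-!
# The solenoid and its Haar measure
-/

set_option autoImplicit false

open Set Filter Topology MeasureTheory Function
open scoped ContDiff ENNReal Real

namespace Pool.Agent.H165S

open Pool.Agent.H165R3

/-- the solenoid of the map `x ↦ -2 x` -/
def Sol : AddSubgroup (ℕ → UnitAddCircle) where
  carrier := {x | ∀ n, (-2 : ℤ) • x (n + 1) = x n}
  zero_mem' := by
    intro n
    simp
  add_mem' := by
    intro a b ha hb n
    show (-2 : ℤ) • (a (n + 1) + b (n + 1)) = a n + b n
    rw [smul_add, ha n, hb n]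
  neg_mem' := by
    intro a ha n
    show (-2 : ℤ) • (-a (n + 1)) = -a n
    rw [smul_neg, ha n]

lemma Sol_closed : IsClosed (Sol : Set (ℕ → UnitAddCircle)) := by
  have h : (Sol : Set (ℕ → UnitAddCircle)) = ⋂ n, {x | (-2 : ℤ) • x (n + 1) = x n} := by
    ext x
    simp only [mem_iInter, mem_ofPred_eq]
    rfl
  rw [h]
  refine isClosed_iInter fun n => isClosed_eq ?_ (continuous_apply n)
  exact (continuous_apply (n + 1)).zsmul (-2)

instance : CompactSpace Sol := isCompact_iff_compactSpace.mp Sol_closed.isCompact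

instance : SecondCountableTopology Sol :=
  TopologicalSpace.Subtype.secondCountableTopology (Sol : Set (ℕ → UnitAddCircle))

/-- Haar probability -/
noncomputable def mS : Measure Sol := Measure.addHaarMeasure ⊤

instance : Measure.IsAddHaarMeasure mS := by unfold mS; infer_instance

lemma mS_univ : mS univ = 1 := by
  have := Measure.addHaarMeasure_self (K₀ := (⊤ : TopologicalSpace.PositiveCompacts Sol))
  simpa [mS] using this

instance : IsProbabilityMeasure mS := ⟨mS_univ⟩

/-- the one-parameter subgroup -/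
noncomputable def tau (t : ℝ) : Sol := ⟨fun n => ((t / (-2) ^ n : ℝ) : UnitAddCircle), by
  intro n
  rw [← AddCircle.coe_zsmul]
  congr 1
  rw [zsmul_eq_mul, pow_succ]
  push_cast
  have : ((-2 : ℝ)) ^ n ≠ 0 := by positivity
  field_simp⟩

lemma tau_apply (t : ℝ) (n : ℕ) : (tau t).1 n = ((t / (-2) ^ n : ℝ) : UnitAddCircle) := rfl

lemma tau_add (s t : ℝ) : tau (s + t) = tau s + tau t := by
  apply Subtype.ext
  funext n
  show (((s + t) / (-2) ^ n : ℝ) : UnitAddCircle) = ((s / (-2) ^ n : ℝ) : UnitAddCircle)
    + ((t / (-2) ^ n : ℝ) : UnitAddCircle)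
  rw [add_div, AddCircle.coe_add]

lemma tau_zero : tau 0 = 0 := by
  have := tau_add 0 0
  rw [add_zero] at this
  exact left_eq_add.mp this

lemma tau_neg (t : ℝ) : tau (-t) = -tau t := by
  have := tau_add t (-t)
  rw [add_neg_cancel, tau_zero] at this
  exact (neg_eq_of_add_eq_zero_right this.symm).symm

lemma tau_cont : Continuous tau := by
  apply Continuous.subtype_mk
  refine continuous_pi fun n => ?_
  exact (AddCircle.continuous_mk' (1 : ℝ)).comp (by fun_prop)

/-- evaluation at `0` -/
def ev0 : Sol →+ UnitAddCircle where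
  toFun x := x.1 0
  map_zero' := rfl
  map_add' _ _ := rfl

lemma ev0_cont : Continuous ev0 := (continuous_apply 0).comp continuous_subtype_val

lemma ev0_tau (t : ℝ) : ev0 (tau t) = (t : UnitAddCircle) := by
  show ((t / (-2) ^ 0 : ℝ) : UnitAddCircle) = t
  simp

lemma ev0_mp : MeasurePreserving ev0 mS (volume : Measure UnitAddCircle) := by
  refine AddMonoidHom.measurePreserving ev0_cont (fun a => ?_) ?_
  · exact ⟨tau (rep a), by rw [ev0_tau, coe_rep]⟩
  · rw [mS_univ]; simp

/-- the shift -/
def sg : Sol →+ Sol where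
  toFun x := ⟨fun n => Nat.casesOn n ((-2 : ℤ) • x.1 0) x.1, by
    intro n
    cases n with
    | zero => rfl
    | succ n => exact x.2 n⟩
  map_zero' := by
    apply Subtype.ext
    funext n
    cases n with
    | zero => show (-2 : ℤ) • (0 : UnitAddCircle) = 0; simp
    | succ n => rfl
  map_add' x y := by
    apply Subtype.ext
    funext n
    cases n with
    | zero => exact smul_add _ _ _
    | succ n => rfl

lemma sg_cont : Continuous sg := by
  apply Continuous.subtype_mk
  refine continuous_pi fun n => ?_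
  cases n with
  | zero => exact ((continuous_apply 0).comp continuous_subtype_val).zsmul (-2)
  | succ n => exact (continuous_apply n).comp continuous_subtype_val

lemma sg_surj : Surjective sg := by
  intro y
  refine ⟨⟨fun n => y.1 (n + 1), fun n => y.2 (n + 1)⟩, ?_⟩
  apply Subtype.ext
  funext n
  cases n with
  | zero => exact y.2 0
  | succ n => rfl

lemma sg_mp : MeasurePreserving sg mS mS := by
  exact AddMonoidHom.measurePreserving sg_cont sg_surj rfl

lemma sg_tau (t : ℝ) : sg (tau t) = tau (-2 * t) := by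
  apply Subtype.ext
  funext n
  cases n with
  | zero =>
    show (-2 : ℤ) • (((t / (-2) ^ 0 : ℝ)) : UnitAddCircle) = ((-2 * t / (-2) ^ 0 : ℝ) : UnitAddCircle)
    rw [← AddCircle.coe_zsmul]
    simp
  | succ n =>
    show ((t / (-2) ^ n : ℝ) : UnitAddCircle) = ((-2 * t / (-2) ^ (n + 1) : ℝ) : UnitAddCircle)
    congr 1
    have : ((-2 : ℝ)) ^ n ≠ 0 := by positivity
    rw [pow_succ]
    field_simp

/-- the transverse coordinate -/
noncomputable def rho (x : Sol) : Sol := x - tau (rep (ev0 x))

lemma rho_meas : Measurable rho :=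
  measurable_id.sub (tau_cont.measurable.comp (rep_meas.comp ev0_cont.measurable))

lemma rho_add (x : Sol) : rho x + tau (rep (ev0 x)) = x := sub_add_cancel _ _

lemma rho_ev0 (x : Sol) : ev0 (rho x) = 0 := by
  unfold rho
  rw [map_sub, ev0_tau, coe_rep, sub_self]

lemma rep_ev0_add (x w : Sol) (hw : ev0 w = 0) : rep (ev0 (x + w)) = rep (ev0 x) := by
  rw [map_add, hw, add_zero]

lemma rho_add_ker (x w : Sol) (hw : ev0 w = 0) : rho (x + w) = rho x + w := by
  unfold rho
  rw [rep_ev0_add x w hw]
  abel

lemma tau_one_ev0 : ev0 (tau 1) = 0 := by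
  rw [ev0_tau]
  exact coe_eq_iff.mpr ⟨1, by norm_num⟩

/-- disintegration of Haar measure along the plaques -/
theorem disint (ψ : Sol → ℝ) (hψ : Continuous ψ) :
    ∫ x, ψ x ∂mS = ∫ x, (∫ v in (0 : ℝ)..1, ψ (rho x + tau v)) ∂mS := by
  set H : Sol → ℝ → ℝ := fun w r => ∫ v in (0 : ℝ)..r, ψ (w + tau v) with hH
  have hHc : Continuous (uncurry H) := by
    apply intervalIntegral.continuous_parametric_primitive_of_continuous
      (f := fun (w : Sol) (v : ℝ) => ψ (w + tau v))
    exact hψ.comp (continuous_fst.add (tau_cont.comp continuous_snd))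
  have hcw : ∀ w : Sol, Continuous fun v => ψ (w + tau v) := fun w =>
    hψ.comp (continuous_const.add tau_cont)
  -- boundedness
  obtain ⟨C, hC⟩ : ∃ C, ∀ x, |ψ x| ≤ C := by
    obtain ⟨C, hC⟩ := (isCompact_range hψ.abs).bddAbove
    exact ⟨C, fun x => hC ⟨x, rfl⟩⟩
  have hC0 : 0 ≤ C := (abs_nonneg _).trans (hC 0)
  have hHb : ∀ w r, 0 ≤ r → r ≤ 1 → ‖H w r‖ ≤ C := by
    intro w r h0 h1
    have h2 := intervalIntegral.norm_integral_le_of_norm_le_const (a := (0 : ℝ)) (b := r) (C := C)
      (f := fun v => ψ (w + tau v)) fun v _ => hC _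
    rw [sub_zero, abs_of_nonneg h0] at h2
    exact h2.trans (by nlinarith)
  have hrep : ∀ x : Sol, 0 ≤ rep (ev0 x) ∧ rep (ev0 x) ≤ 1 := fun x =>
    ⟨(rep_mem _).1.le, (rep_mem _).2⟩
  -- pointwise identity
  have key : ∀ x : Sol, H x 1 = H (rho x) 1 + (H (rho x + tau 1) (rep (ev0 x))
      - H (rho x) (rep (ev0 x))) := by
    intro x
    set r := rep (ev0 x) with hr
    have e1 : H x 1 = ∫ v in r..(1 + r), ψ (rho x + tau v) := by
      have h := intervalIntegral.integral_comp_add_right (a := 0) (b := 1)
        (fun v => ψ (rho x + tau v)) r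
      rw [zero_add] at h
      rw [← h]
      simp only [hH]
      refine intervalIntegral.integral_congr fun v _ => ?_
      show ψ (x + tau v) = ψ (rho x + tau (v + r))
      rw [add_comm v r, tau_add, ← add_assoc, rho_add]
    have e2 : H (rho x + tau 1) r = ∫ v in (1 : ℝ)..(1 + r), ψ (rho x + tau v) := by
      have h := intervalIntegral.integral_comp_add_right (a := 0) (b := r)
        (fun v => ψ (rho x + tau v)) 1
      rw [zero_add, add_comm r 1] at h
      rw [← h]
      simp only [hH]
      refine intervalIntegral.integral_congr fun v _ => ?_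
      show ψ (rho x + tau 1 + tau v) = ψ (rho x + tau (v + 1))
      rw [add_comm v 1, tau_add, ← add_assoc]
    have e3 := intervalIntegral.integral_add_adjacent_intervals (μ := volume) (a := 0) (b := 1)
      (c := 1 + r) (f := fun v => ψ (rho x + tau v)) ((hcw _).intervalIntegrable _ _)
      ((hcw _).intervalIntegrable _ _)
    have e4 := intervalIntegral.integral_add_adjacent_intervals (μ := volume) (a := 0) (b := r)
      (c := 1 + r) (f := fun v => ψ (rho x + tau v)) ((hcw _).intervalIntegrable _ _)
      ((hcw _).intervalIntegrable _ _)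
    rw [e1, e2]
    simp only [hH]
    linarith
  have hm1 : Measurable fun x : Sol => H (rho x) 1 :=
    hHc.measurable.comp (rho_meas.prodMk measurable_const)
  have hm2 : Measurable fun x : Sol => H (rho x) (rep (ev0 x)) :=
    hHc.measurable.comp (rho_meas.prodMk (rep_meas.comp ev0_cont.measurable))
  have hm3 : Measurable fun x : Sol => H (rho x + tau 1) (rep (ev0 x)) :=
    hHc.measurable.comp ((rho_meas.add_const _).prodMk (rep_meas.comp ev0_cont.measurable))
  have int_of : ∀ u : Sol → ℝ, Measurable u → (∀ x, ‖u x‖ ≤ C) → Integrable u mS :=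
    fun u hu hb => Integrable.of_bound hu.aestronglyMeasurable C (Eventually.of_forall hb)
  have i1 := int_of _ hm1 fun x => hHb _ _ zero_le_one le_rfl
  have i2 := int_of _ hm2 fun x => hHb _ _ (hrep x).1 (hrep x).2
  have i3 := int_of _ hm3 fun x => hHb _ _ (hrep x).1 (hrep x).2
  have inv : ∀ (u : Sol → ℝ) (g : Sol), ∫ x, u (x + g) ∂mS = ∫ x, u x ∂mS := fun u g =>
    integral_add_right_eq_self u g
  have s1 : ∫ x, H (rho x + tau 1) (rep (ev0 x)) ∂mS = ∫ x, H (rho x) (rep (ev0 x)) ∂mS := by
    rw [← inv (fun x => H (rho x) (rep (ev0 x))) (tau 1)]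
    refine integral_congr_ae (Eventually.of_forall fun x => ?_)
    simp only
    rw [rho_add_ker _ _ tau_one_ev0, rep_ev0_add _ _ tau_one_ev0]
  have s2 : ∫ x, H x 1 ∂mS = ∫ x, H (rho x) 1 ∂mS := by
    rw [integral_congr_ae (Eventually.of_forall key)]
    have i4 : Integrable (fun x : Sol => H (rho x + tau 1) (rep (ev0 x))
        - H (rho x) (rep (ev0 x))) mS := i3.sub i2
    rw [integral_add i1 i4, integral_sub i3 i2, s1, sub_self, add_zero]
  have s3 : ∫ x, H x 1 ∂mS = ∫ x, ψ x ∂mS := by
    simp only [hH]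
    have hint : Integrable (uncurry fun (x : Sol) (v : ℝ) => ψ (x + tau v))
        (mS.prod (volume.restrict (Ioc (0 : ℝ) 1))) := by
      refine Integrable.of_bound ?_ C (Eventually.of_forall fun p => hC _)
      exact (hψ.comp (continuous_fst.add (tau_cont.comp continuous_snd))).aestronglyMeasurable
    simp only [intervalIntegral.integral_of_le zero_le_one]
    rw [integral_integral_swap hint]
    simp only [inv]
    simp
  rw [← s3, s2]

end Pool.Agent.H165S
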